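import Pool.Agent.Q26.GB.Law

/-!
# The almost prime representations of every even number: Poisson law, gap law, and the law after primes

Call `m` good (for the even number `n`) if neither `m` nor `n - m` has a prime factor `≤ n ^ (1/r)`; for `0 < m < n`
both `m` and `n - m` have then fewer than `r` prime factors. For `r` large and fixed, and for EVERY large even `n`, the
good `m` are distributed in the intervals of length `≥ n ^ θ` like a Poisson process of intensity `V`, and the number of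
the representations `n = p + m` with `p` PRIME and `m` without prime factors `≤ n ^ (1/r)` is, in the intervals of length
`≥ δ n`, asymptotic to the number expected by Hardy and Littlewood, up to `ε`, and the good integers after these primes
obey the Poisson law.
-/

set_option autoImplicit false

namespace Pool.Agent.Results.MP_629a14_nt.RepresentationLawEveryEven

open Finset Filter

/-- neither `m` nor `n - m` has a prime factor `p ≤ n ^ (1/r)` -/
def Good (r n m : ℕ) : Prop :=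
  ∀ p : ℕ, p.Prime → (p : ℝ) ≤ (n : ℝ) ^ (1 / (r : ℝ)) → ¬ p ∣ m ∧ ¬ (p : ℤ) ∣ (n : ℤ) - m

/-- the number of the classes modulo `p` of the `m` with `p ∣ m (n - m)` -/
def omega (n p : ℕ) : ℕ := if p ∣ n then 1 else 2

/-- the product of `1 - ω(p) / p` over the primes `p ≤ n ^ (1/r)` -/
noncomputable def V (r n : ℕ) : ℝ :=
  ∏ p ∈ (Icc 1 ⌊(n : ℝ) ^ (1 / (r : ℝ))⌋₊).filter Nat.Prime, (1 - (omega n p : ℝ) / p)

/-- the product of `(1 - ω(p) / p) / (1 - 1 / p)` over the primes `p ≤ n ^ (1/r)` -/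
noncomputable def W (r n : ℕ) : ℝ :=
  ∏ p ∈ (Icc 1 ⌊(n : ℝ) ^ (1 / (r : ℝ))⌋₊).filter Nat.Prime, ((1 - (omega n p : ℝ) / p) / (1 - 1 / (p : ℝ)))

open Classical in
/-- the number of the good integers in `(a, a + T]` -/
noncomputable def count (r n T a : ℕ) : ℕ := ((Ioc a (a + T)).filter (fun m => Good r n m)).card

/-- the weights of the Poisson law -/
noncomputable def pois (x : ℝ) (j : ℕ) : ℝ := Real.exp (-x) * x ^ j / j.factorial

lemma good_iff (r n m : ℕ) :
    Good r n m ↔ Pool.Agent.TH464.PO.Sf (Pool.Agent.W123.RU.Poly.Q (Pool.Agent.Q26.GB.gs n))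
      ⌊(n : ℝ) ^ (1 / (r : ℝ))⌋₊ m := by
  unfold Good Pool.Agent.TH464.PO.Sf Pool.Agent.H373R2.T7.pz
  constructor
  · intro h p hp
    rw [mem_filter, mem_Icc] at hp
    have h1 : (p : ℝ) ≤ (n : ℝ) ^ (1 / (r : ℝ)) :=
      (Nat.le_floor_iff (by positivity)).1 hp.1.2
    obtain ⟨h2, h3⟩ := h p hp.2 h1
    rw [Pool.Agent.Q26.GB.gs_Q]
    push Not
    exact ⟨by exact_mod_cast h2, h3⟩
  · intro h p hp h1
    have h2 : p ≤ ⌊(n : ℝ) ^ (1 / (r : ℝ))⌋₊ := Nat.le_floor h1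
    have h3 := h p (mem_filter.2 ⟨mem_Icc.2 ⟨hp.one_lt.le, h2⟩, hp⟩)
    rw [Pool.Agent.Q26.GB.gs_Q] at h3
    push Not at h3
    exact ⟨by exact_mod_cast h3.1, h3.2⟩

lemma V_eq (r n : ℕ) :
    V r n = Pool.Agent.W123.RP.Vq (Pool.Agent.W123.RU.Poly.Q (Pool.Agent.Q26.GB.gs n))
      ⌊(n : ℝ) ^ (1 / (r : ℝ))⌋₊ := by
  unfold V Pool.Agent.W123.RP.Vq Pool.Agent.H373R2.T7.pz
  refine prod_congr rfl (fun p hp => ?_)
  rw [Pool.Agent.Q26.GB.gs_nu n p (mem_filter.1 hp).2]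
  rfl

lemma W_eq (r n : ℕ) :
    W r n = Pool.Agent.W123.RP.Vq (Pool.Agent.W123.RU.Poly.Q (Pool.Agent.Q26.GB.gs n))
      ⌊(n : ℝ) ^ (1 / (r : ℝ))⌋₊ / Pool.Agent.H373R2.T7.Vz ⌊(n : ℝ) ^ (1 / (r : ℝ))⌋₊ := by
  unfold W Pool.Agent.W123.RP.Vq Pool.Agent.H373R2.T7.Vz Pool.Agent.H373R2.T7.pz
  rw [← prod_div_distrib]
  refine prod_congr rfl (fun p hp => ?_)
  rw [Pool.Agent.Q26.GB.gs_nu n p (mem_filter.1 hp).2]
  rfl

open Classical in
/-- **The almost prime representations of every even number.** Let `θ, δ, ε > 0`, `x₀` real and `l₀ ≥ 0`. There is `r₀`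
such that for every `r ≥ r₀` and EVERY sufficiently large even `n` the following holds.
(1) In all intervals `(Z, Z + Y]` with `Y ≥ n ^ θ`, for `T V ≤ x₀` and every set `A`: the number of the `a` in the
interval such that the number of the good integers in `(a, a + T]` is in `A` is `Y ∑_{j ∈ A} exp(-TV) (TV)^j / j!` up to
`ε Y`.
(2) In the same intervals, for `l ≤ l₀` or `T V ≤ x₀`: the number of the good `b` in the interval with fewer than `l`
good integers in `[b - T, b)` is `Y V ∑_{j < l} exp(-TV) (TV)^j / j!` up to `ε Y V`.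
(3) In all intervals `(u, u + Y]` in `[0, n]` with `Y ≥ δ n`: the number of the good PRIMES in the interval is
`(1 ± ε) W Y / log n`.
(4) In the same intervals, for `T V ≤ x₀` and every set `A`: the proportion of the good primes `p` in the interval such
that the number of the good integers in `(p, p + T]` is in `A` is `∑_{j ∈ A} exp(-TV) (TV)^j / j!` up to `ε`. -/
theorem result (θ δ ε x₀ : ℝ) (hθ : 0 < θ) (hδ : 0 < δ) (hδ1 : δ ≤ 1) (hε : 0 < ε) (hε1 : ε ≤ 1) (l₀ : ℕ) :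
    ∃ r₀ : ℕ, ∀ r : ℕ, r₀ ≤ r → ∃ n₀ : ℕ, ∀ n : ℕ, n₀ ≤ n → Even n →
      (∀ Z Y : ℕ, (n : ℝ) ^ θ ≤ Y →
        (∀ T : ℕ, T * V r n ≤ x₀ → ∀ A : Finset ℕ,
          |(((Ioc Z (Z + Y)).filter (fun a => count r n T a ∈ A)).card : ℝ) -
            Y * ∑ j ∈ A, pois (T * V r n) j| ≤ ε * Y) ∧
        (∀ l T : ℕ, (l ≤ l₀ ∨ T * V r n ≤ x₀) →
          |(((Ioc Z (Z + Y)).filter (fun b => Good r n b ∧
              ((Ico (b - T) b).filter (fun m => Good r n m)).card < l)).card : ℝ) -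
            Y * V r n * ∑ j ∈ range l, pois (T * V r n) j| ≤ ε * (Y * V r n))) ∧
      (∀ u Y : ℕ, δ * n ≤ Y → u + Y ≤ n →
        |(((Ioc u (u + Y)).filter (fun p => p.Prime ∧ Good r n p)).card : ℝ) * Real.log n - Y * W r n| ≤
          ε * (Y * W r n) ∧
        ∀ T : ℕ, T * V r n ≤ x₀ → ∀ A : Finset ℕ,
          |(((Ioc u (u + Y)).filter (fun p => (p.Prime ∧ Good r n p) ∧ count r n T p ∈ A)).card : ℝ) -
            ((Ioc u (u + Y)).filter (fun p => p.Prime ∧ Good r n p)).card * ∑ j ∈ A, pois (T * V r n) j| ≤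
          ε * ((Ioc u (u + Y)).filter (fun p => p.Prime ∧ Good r n p)).card) := by
  obtain ⟨r1, h1⟩ := Pool.Agent.Q26.BH.poisson_polys 2 1 1 (1 / 2) θ one_pos (by norm_num) hθ x₀ ε hε
  obtain ⟨r2, h2⟩ := Pool.Agent.Y879.GL.gap_polys 2 1 1 (1 / 2) θ one_pos (by norm_num) hθ l₀ x₀ ε hε
  obtain ⟨r3, h3⟩ := Pool.Agent.Q26.BH.prime_law 1 2 1 squarefree_one 1 (1 / 2) 1 δ one_pos (by norm_num)
    one_pos hδ hδ1 x₀ ε hε hε1
  obtain ⟨C, hC, hVC⟩ := Pool.Agent.Q26.BH.V_one 1 one_ne_zero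
  refine ⟨max (max r1 r2) (max r3 2), fun r hr => ?_⟩
  have hra : r1 ≤ r := ((le_max_left _ _).trans (le_max_left _ _)).trans hr
  have hrb : r2 ≤ r := ((le_max_right _ _).trans (le_max_left _ _)).trans hr
  have hrc : r3 ≤ r := ((le_max_left _ _).trans (le_max_right _ _)).trans hr
  have hrd : 2 ≤ r := ((le_max_right _ _).trans (le_max_right _ _)).trans hr
  rw [← eventually_atTop]
  filter_upwards [h1 r hra (C * (2 * r)), h2 r hrb (C * (2 * r)), h3 r hrc,
    Pool.Agent.Y879.GL.level_ok r hrd, eventually_ge_atTop 2] with n hn1 hn2 hn3 hlev hnn heven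
  obtain ⟨l1, l2, l3, l4, l5⟩ := hlev
  have hUS := Pool.Agent.Q26.GB.gs_US n hnn heven
  have hV := V_eq r n
  have hW := W_eq r n
  have hg : ∀ m, Good r n m ↔ Pool.Agent.TH464.PO.Sf (Pool.Agent.W123.RU.Poly.Q (Pool.Agent.Q26.GB.gs n))
      ⌊(n : ℝ) ^ (1 / (r : ℝ))⌋₊ m := good_iff r n
  have hbase : ∀ m : ℕ, (Pool.Agent.Q26.GB.gs n 0).eval (m : ℤ) = ((1 : ℕ) : ℤ) * m + ((0 : ℕ) : ℤ) := by
    intro m
    change (Polynomial.X : Polynomial ℤ).eval (m : ℤ) = _
    rw [Polynomial.eval_X]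
    push_cast
    ring
  have hVup : Pool.Agent.W123.RP.Vq (Pool.Agent.W123.RU.Poly.Q (Pool.Agent.Q26.GB.gs n))
      ⌊(n : ℝ) ^ (1 / (r : ℝ))⌋₊ ≤ C * (2 * r) / Real.log n := by
    have h4 := hVC (Pool.Agent.W123.RU.Poly.Q (Pool.Agent.Q26.GB.gs n))
      (fun p hp hpa => Pool.Agent.Q26.BH.one_class _ 1 0 0 (by exact_mod_cast hbase) p hp hpa)
      (Pool.Agent.Y879.GL.us_adm hUS) ⌊(n : ℝ) ^ (1 / (r : ℝ))⌋₊ (by omega)
    refine h4.trans ?_
    have hr0' : (0 : ℝ) < r := by exact_mod_cast (by omega : 0 < r)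
    rw [div_le_div_iff₀ (by linarith) (by linarith)]
    rw [div_le_iff₀ (by positivity)] at l2
    nlinarith
  constructor
  · intro Z Y hY
    constructor
    · intro T hTx A
      rw [hV] at hTx ⊢
      have h5 := hn1 _ hUS hVup Z Y hY T hTx A
      have e1 : ((Ioc Z (Z + Y)).filter (fun a => count r n T a ∈ A)) =
          ((Ioc Z (Z + Y)).filter (fun a => Pool.Agent.TH464.PO.Wc
            (Pool.Agent.TH464.PO.Sf (Pool.Agent.W123.RU.Poly.Q (Pool.Agent.Q26.GB.gs n))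
              ⌊(n : ℝ) ^ (1 / (r : ℝ))⌋₊) a T ∈ A)) := by
        apply filter_congr
        intro a _
        unfold count Pool.Agent.TH464.PO.Wc
        rw [filter_congr (fun m _ => hg m)]
      rw [e1]
      exact h5
    · intro l T hTx
      rw [hV] at hTx ⊢
      have h5 := hn2 _ hUS hVup Z Y hY l T hTx
      have e1 : ((Ioc Z (Z + Y)).filter (fun b => Good r n b ∧
              ((Ico (b - T) b).filter (fun m => Good r n m)).card < l)) =
          ((Ioc Z (Z + Y)).filter (fun b => Pool.Agent.TH464.PO.Sf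
              (Pool.Agent.W123.RU.Poly.Q (Pool.Agent.Q26.GB.gs n)) ⌊(n : ℝ) ^ (1 / (r : ℝ))⌋₊ b ∧
              ((Ico (b - T) b).filter (Pool.Agent.TH464.PO.Sf
                (Pool.Agent.W123.RU.Poly.Q (Pool.Agent.Q26.GB.gs n)) ⌊(n : ℝ) ^ (1 / (r : ℝ))⌋₊)).card < l)) := by
        apply filter_congr
        intro b _
        rw [hg b, filter_congr (fun m _ => hg m)]
      rw [e1]
      exact h5
  · intro u Y hY huY
    have hP : ((Ioc u (u + Y)).filter (fun p => p.Prime ∧ Good r n p)) =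
        Pool.Agent.Y879.PR.Om 1 0 (Pool.Agent.W123.RU.Poly.Q (Pool.Agent.Q26.GB.gs n))
          ⌊(n : ℝ) ^ (1 / (r : ℝ))⌋₊ u Y := by
      unfold Pool.Agent.Y879.PR.Om
      apply filter_congr
      intro m _
      rw [hg m, one_mul, add_zero]
    have h5 := hn3 _ 0 hUS (Nat.coprime_one_left 0) (fun p m hp hpa => absurd (Nat.dvd_one.1 hpa) hp.one_lt.ne')
      ⟨0, hbase⟩ (by push_cast; positivity) n (by rw [Real.rpow_one]) u Y hY huY
    rw [hV, hW, hP]
    refine ⟨h5.1, fun T hT A => ?_⟩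
    have h6 := h5.2 T hT A
    have e1 : ((Ioc u (u + Y)).filter (fun p => (p.Prime ∧ Good r n p) ∧ count r n T p ∈ A)) =
        ((Pool.Agent.Y879.PR.Om 1 0 (Pool.Agent.W123.RU.Poly.Q (Pool.Agent.Q26.GB.gs n))
          ⌊(n : ℝ) ^ (1 / (r : ℝ))⌋₊ u Y).filter (fun p => Pool.Agent.TH464.PO.Wc
            (Pool.Agent.TH464.PO.Sf (Pool.Agent.W123.RU.Poly.Q (Pool.Agent.Q26.GB.gs n))
              ⌊(n : ℝ) ^ (1 / (r : ℝ))⌋₊) p T ∈ A)) := by
      rw [← hP, filter_filter]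
      apply filter_congr
      intro p _
      unfold count Pool.Agent.TH464.PO.Wc
      rw [filter_congr (fun m _ => hg m)]
    rw [e1]
    exact h6

end Pool.Agent.Results.MP_629a14_nt.RepresentationLawEveryEven
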