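import Pool.Agent.Q46.PV.Inst
import Pool.Agent.Q46.GQ.Hyp
import Pool.Agent.Q46.GQ.Poly
import Pool.Agent.Q46.GQ.LogInv

/-!
# Long strings of composite values of a polynomial around the points of modular hyperbolas and polynomial graphs

Let `f` be an irreducible polynomial with integer coefficients and positive leading coefficient, for instance
`f = X^2 + 1`.  Around many points `n` the values `f(m)`, `|m - n| ≤ κ log n log log n`, are all composite.  Here such `n`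
are found in structured sets: both coordinates of many points of the modular hyperbola `x y = c mod p`, both `x` and
the least residue of `g(x)` mod `p` for an arbitrary polynomial `g` of degree `≥ 2`, and simultaneously the three
integers `n`, `u g^n mod p`, `v g^(-n) mod p`, in boxes down to the limits of Weil's bound.

Design and proof: helper46 (modules `Pool.Agent.Q46.PV.*`: the covering criterion for vectors of integers and values of
polynomials, on the covering theorem `Pool.Agent.H474R2.PG` of the starting repository; `Pool.Agent.Q46.GQ.*`: the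
completion of sums over boxes, Kloosterman sums, Weil's bound).
-/

set_option autoImplicit false

open Polynomial

namespace Pool.Agent.Results.MP_7169d5_nt.InversesAndPolynomialResidues

/-- every value of `f` at an integer at distance at most `K` of `x` has a prime factor smaller than the value (in
particular none of these values is a prime) -/
def Composite (f : ℤ[X]) (K : ℝ) (x : ℤ) : Prop :=
  ∀ k : ℤ, |(k : ℝ)| ≤ K → ∃ q : ℕ, q.Prime ∧ (q : ℤ) ∣ f.eval (x + k) ∧ (q : ℤ) < f.eval (x + k)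

/-- the length `log x log log x` -/
noncomputable def len (x : ℝ) : ℝ := Real.log x * Real.log (Real.log x)

/-- **Composite values around points of modular hyperbolas, of graphs of polynomials modulo `p`, and around
residues, their inverses and their discrete logarithms.** -/
theorem result : ∀ f : ℤ[X], Irreducible f → 0 < f.natDegree → 0 < f.leadingCoeff → ∀ ε : ℝ, 0 < ε → ε ≤ 1 →
    -- modular hyperbolas
    (∃ κ : ℝ, 0 < κ ∧ ∃ p₀ : ℕ, ∀ p : ℕ, p₀ ≤ p → p.Prime →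
      ∀ c : ℤ, ¬ (p : ℤ) ∣ c → ∀ A M B N : ℕ, A + M ≤ p → B + N ≤ p → (p : ℝ) ^ (3 / 2 + ε) ≤ (M : ℝ) * N →
      ∃ G : Finset (ℕ × ℕ), (M : ℝ) * N / p * (p : ℝ) ^ (-ε) ≤ G.card ∧
        ∀ z ∈ G, (A ≤ z.1 ∧ z.1 < A + M) ∧ (B ≤ z.2 ∧ z.2 < B + N) ∧ (p : ℤ) ∣ z.1 * z.2 - c ∧
          Composite f (κ * len p) z.1 ∧ Composite f (κ * len p) z.2) ∧
    -- graphs of polynomials
    (∀ d : ℕ, 2 ≤ d → ∃ κ : ℝ, 0 < κ ∧ ∃ p₀ : ℕ, ∀ p : ℕ, p₀ ≤ p → p.Prime →
      ∀ g : ℤ[X], g.natDegree = d → ¬ (p : ℤ) ∣ g.leadingCoeff → ∀ A M B N : ℕ, A + M ≤ p → B + N ≤ p →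
      (p : ℝ) ^ (3 / 2 + ε) ≤ (M : ℝ) * N →
      ∃ G : Finset (ℕ × ℕ), (M : ℝ) * N / p * (p : ℝ) ^ (-ε) ≤ G.card ∧
        ∀ z ∈ G, (A ≤ z.1 ∧ z.1 < A + M) ∧ (B ≤ z.2 ∧ z.2 < B + N) ∧ (p : ℤ) ∣ g.eval (z.1 : ℤ) - z.2 ∧
          Composite f (κ * len p) z.1 ∧ Composite f (κ * len p) z.2) ∧
    -- a residue, its inverse and its discrete logarithm
    (∃ κ : ℝ, 0 < κ ∧ ∃ p₀ : ℕ,
      ∀ p : ℕ, p₀ ≤ p → ∀ [Fact p.Prime], ∀ (g u v : (ZMod p)ˣ) (A N : Fin 3 → ℕ),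
      A 0 + N 0 ≤ orderOf g → A 1 + N 1 ≤ p → A 2 + N 2 ≤ p → (∀ j, (p : ℝ) ^ ε ≤ N j) →
      (p : ℝ) ^ (10 + ε) * ((orderOf g : ℕ) : ℝ) ≤ ((N 0 : ℝ) * N 1 * N 2) ^ 4 →
        ∃ G : Finset ℕ, (N 0 : ℝ) * N 1 * N 2 * (p : ℝ) ^ (-(2 + ε)) ≤ G.card ∧ ∀ n ∈ G,
          (A 0 ≤ n ∧ n < A 0 + N 0) ∧
          (A 1 ≤ ((u * g ^ n : (ZMod p)ˣ) : ZMod p).val ∧ ((u * g ^ n : (ZMod p)ˣ) : ZMod p).val < A 1 + N 1) ∧
          (A 2 ≤ ((v * (g ^ n)⁻¹ : (ZMod p)ˣ) : ZMod p).val ∧ ((v * (g ^ n)⁻¹ : (ZMod p)ˣ) : ZMod p).val < A 2 + N 2) ∧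
          Composite f (κ * len p) n ∧ Composite f (κ * len p) ((u * g ^ n : (ZMod p)ˣ) : ZMod p).val ∧
          Composite f (κ * len p) ((v * (g ^ n)⁻¹ : (ZMod p)ˣ) : ZMod p).val) := by
  intro f hf hd hl ε h0 h1
  refine ⟨?_, ?_, ?_⟩
  · exact Pool.Agent.Q46.GQ.hyperbola (Pool.Agent.Q46.PV.QP f) (Pool.Agent.Q46.PV.CH_QP f hf hd hl) ε h0 h1
  · intro d hd2
    exact Pool.Agent.Q46.GQ.polynomial (Pool.Agent.Q46.PV.QP f) (Pool.Agent.Q46.PV.CH_QP f hf hd hl) d hd2 ε h0 h1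
  · exact Pool.Agent.Q46.GQ.loginv (Pool.Agent.Q46.PV.QP f) (Pool.Agent.Q46.PV.CH_QP f hf hd hl) ε h0 h1

end Pool.Agent.Results.MP_7169d5_nt.InversesAndPolynomialResidues
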